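import Pool.Agent.PWG.StC
import Pool.Agent.EKL.Grf
import Pool.Agent.NLG.Lin
import Pool.Agent.NLG.Sub

/-!
# Campaign NGC: definitions (finite covers which need not be Galois)

Aim, for MP_0707f5_ag: let `H` be a subgroup of index `d` of the fundamental group of a punctured surface
of genus `g`, Galois or not, and `σ₁, σ₂ : H → GL_r ℂ` irreducible with the same traces on the
simple non-separating curves in `H`; if `C (log₂ d + 1 + r) ≤ g` then they have the same traces.

Lists of pairs are lists of handle values, `LG` are the moves, `Gn B` is the group generated by the entries.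
-/

set_option autoImplicit false

namespace Pool.Agent.NGC

open Pool.Agent.PW Pool.Agent.PWM Pool.Agent.PWB Pool.Agent.PWX Pool.Agent.PWF Pool.Agent.PWL
  Pool.Agent.PWY Pool.Agent.PWE

/-- The letters of a list: the second entries of the first pairs of the lists which are reached from it. -/
def Lt {Γ : Type} [Group Γ] (B : List (Γ × Γ)) : Set Γ := {x | ∃ p B', LG B (p :: B') ∧ p.2 = x}

/-- The letters whose complement has the property `Fu`. -/
def Lf {Γ : Type} [Group Γ] (Fu : List (Γ × Γ) → Prop) (B : List (Γ × Γ)) : Set Γ :=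
  {x | ∃ p B', LG B (p :: B') ∧ Fu B' ∧ p.2 = x}

/-- The interface between the two halves of the campaign: properties of a class `Fu` of lists. -/
structure Itf {Γ : Type} [Group Γ] (H : Subgroup Γ) (Fu : List (Γ × Γ) → Prop) (M : ℕ) : Prop where
  lg : ∀ B B', Fu B → LG B B' → Fu B'
  mono : ∀ A B C, Fu B → Fu (A ++ B ++ C)
  ex : ∀ B, Fu B → M ≤ B.length → ∃ y ∈ H, y ∈ Lf Fu B
  gen : ∀ B, Fu B → M ≤ B.length → ∀ x ∈ Gn B, x ∈ H →
    x ∈ Subgroup.closure {y | y ∈ H ∧ y ∈ Lf Fu B}
  spl : ∀ B a, Fu B → M ≤ a → a + M ≤ B.length →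
    ∃ P B', LG B (P ++ B') ∧ P.length = a ∧ Fu P ∧ Fu B'

section
variable {K : Type} [Field K] {r : ℕ} {G : Type} [Group G]

/-- The pair of the endomorphisms (as `EKL.prE`, for any field). -/
noncomputable def prE (ρ₁ ρ₂ : G →* GL (Fin r) K) :
    G →* Module.End K (Fin r → K) × Module.End K (Fin r → K) :=
  ((Matrix.toLinAlgEquiv' (R := K) (n := Fin r) :
    Matrix (Fin r) (Fin r) K →* Module.End K (Fin r → K)).comp
      ((Units.coeHom (Matrix (Fin r) (Fin r) K)).comp ρ₁)).prod
  ((Matrix.toLinAlgEquiv' (R := K) (n := Fin r) :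
    Matrix (Fin r) (Fin r) K →* Module.End K (Fin r → K)).comp
      ((Units.coeHom (Matrix (Fin r) (Fin r) K)).comp ρ₂))

/-- Irreducibility. -/
def Irr (ρ : G →* GL (Fin r) K) : Prop := ∀ W : Submodule K (Fin r → K),
  (∀ x, ∀ v ∈ W, (ρ x : Matrix (Fin r) (Fin r) K).mulVec v ∈ W) → W = ⊥ ∨ W = ⊤

/-- The trace. -/
def trK (A : GL (Fin r) K) : K := (A : Matrix (Fin r) (Fin r) K).trace

end

end Pool.Agent.NGC
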