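import Pool.Agent.NGC.Defs

/-!
# Campaign NGC: statements, part A (growth in the linear range)
-/

set_option autoImplicit false

namespace Pool.Agent.NGC

open Pool.Agent.PW Pool.Agent.PWM Pool.Agent.PWB Pool.Agent.PWX Pool.Agent.PWF Pool.Agent.PWL
  Pool.Agent.PWY Pool.Agent.PWE

/-- (Gro) The linear growth for a class `Fu` with the properties `Itf`, any subgroup `H`, any field.
Proof.  As NLG/Tw, Gro, Blo and EKL/Ssi, Vkk, with the lists of pairs and `LG` in place of `WReach`, `k = 1` (no weights, no context).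
`R` the action of `H` on pairs of matrices by left multiplication, `U = M_r × M_r`, `w = (1, 1)`, `T (X, Y) = tr X - tr Y`, `T w = 0`.  Letters: `Lt P`; `Sp w P = span (w, R x w : x ∈ H, x ∈ Lt P)`.
(L1) `LG A (C ++ D)` gives `Lt C, Lt D ⊆ Lt A` (`eFrt` (1)).  (L2) `x ∈ Lt P`, `y ∈ Lt Q` give `y * x ∈ Lt (P ++ Q)` (`eFrt` (1), (2): `(mg p q).1.2 = q.2 * p.2`), so `R y` maps `Sp w P` to `Sp w (P ++ Q)` if `y ∈ H`.
States: `P ++ B`, reached from `B₀`, `Fu B`; step: `LG B (p :: B')`, `Fu B'`, new state `(P ++ [p]) ++ B'`.  The spare letters of `B` are `H ∩ Lf Fu B`.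
TW: `Fu B`, `M + dim (cyc R z ⊤) + 1 ≤ |B|`; a subspace which contains `R y z` for all spare letters `y` of `B` contains `cyc R z ⊤`.  (`tw_grow`: if no spare `p` of the rest `B'` enlarges `Sp z P` then the spare letters of `B'` stabilise `Sp z P`, by `Itf.gen` so does `H ∩ Gn B'`, and `Sp z P = cyc R z ⊤` because `Fu B'`;
at the end take a spare letter `y₀ ∈ H` of the rest (`Itf.ex`): `y₀` and all `y₀ * x`, `x ∈ H ∩ Lt P`, are spare letters of `B`.)  BLO: `Fu P`, `M + dim (cyc R z ⊤) + 1 ≤ |P|` give `cyc R z ⊤ ≤ Sp z P`.  GRO as in NLG/Gro (`growth'`, `lin`, `drop`; `8 κ < r`, `M + 2 r + 1 + 8 κ ≤ |B|`).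
Iteration as in EKL/Vkk: `Itf.spl` with `a = M + r + 1` gives the block `P₁`; then at most `16 r` steps with growth `≥ κ + 1 ≥ r / 8`, then at most `4 κ` steps with growth `≥ 1`.  In the end `Sp w P = cyc R w ⊤` and `T = 0` on it (`Lt P ⊆ Lt B₀`). -/
def St_Gro : Prop := ∀ (K : Type) [Field K] {Γ : Type} [Group Γ] (H : Subgroup Γ) (r M : ℕ)
  (ρ₁ ρ₂ : H →* GL (Fin r) K) (Fu : List (Γ × Γ) → Prop), Itf H Fu M → Irr ρ₁ → Irr ρ₂ →
  (∀ B, Fu B → EKL.alg K (prE ρ₁ ρ₂) ((Gn B).subgroupOf H) = EKL.alg K (prE ρ₁ ρ₂) ⊤) →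
  ∀ B₀ : List (Γ × Γ), Fu B₀ → 2 * M + 24 * r + 8 ≤ B₀.length →
  (∀ (x : Γ) (hx : x ∈ H), x ∈ Lt B₀ → trK (ρ₁ ⟨x, hx⟩) = trK (ρ₂ ⟨x, hx⟩)) →
  ∀ x : H, trK (ρ₁ x) = trK (ρ₂ x)

end Pool.Agent.NGC
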